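import Pool.Agent.W96.CL.Stm
set_option autoImplicit false

/-!
# Transfer matrix = percolation
-/

namespace W96CL
namespace LINKX

open Relation

/-! ## 1. the layer as a map on setoids -/

lemma alive_gen {n i : ℕ} {r : Setoid (Option (Fin n))} (h : alive (gen n i r)) : alive r := by
  unfold gen at h
  split_ifs at h with h1 h2
  · obtain ⟨k, hk⟩ := h
    rcases hk with hk | ⟨_, _, hk⟩
    · cases hk
    · exact ⟨k, hk⟩
  · obtain ⟨k, hk⟩ := h
    rcases hk with hk | ⟨hk, _⟩ | ⟨hk, _⟩
    · exact ⟨k, hk⟩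
    · exact ⟨_, hk⟩
    · exact ⟨_, hk⟩
  · exact h

/-- apply the generators `i, i+2, ...` (`m` of them) for which `f k = s` -/
def layMap (n : ℕ) (s : Bool) : (ℕ → Bool) → ℕ → ℕ → Setoid (Option (Fin n)) →
    Setoid (Option (Fin n))
  | _, _, 0, r => r
  | f, i, (m + 1), r =>
    if f 0 = s then gen n i (layMap n s (fun k => f (k + 1)) (i + 2) m r)
    else layMap n s (fun k => f (k + 1)) (i + 2) m r

lemma layMap_zero (n : ℕ) (s : Bool) (f : ℕ → Bool) (i : ℕ) (r : Setoid (Option (Fin n))) :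
    layMap n s f i 0 r = r := rfl

lemma layMap_succ (n : ℕ) (s : Bool) (f : ℕ → Bool) (i m : ℕ) (r : Setoid (Option (Fin n))) :
    layMap n s f i (m + 1) r = if f 0 = s then gen n i (layMap n s (fun k => f (k + 1)) (i + 2) m r)
    else layMap n s (fun k => f (k + 1)) (i + 2) m r := rfl

lemma gen_even {n j : ℕ} (hj : j < n) (r : Setoid (Option (Fin n))) :
    gen n (2 * j) r = cutS ⟨j, hj⟩ r := by
  have h1 : (2 * j) % 2 = 0 := by omega
  have h2 : (2 * j) / 2 = j := by omega
  unfold gen
  rw [dif_pos ⟨h1, by rw [h2]; exact hj⟩]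
  congr 1
  exact Fin.ext h2

lemma gen_odd {n j : ℕ} (hj : j + 1 < n) (r : Setoid (Option (Fin n))) :
    gen n (2 * j + 1) r = joinS ⟨j, by omega⟩ ⟨j + 1, hj⟩ r := by
  have h1 : (2 * j + 1) % 2 = 1 := by omega
  have h2 : (2 * j + 1) / 2 = j := by omega
  unfold gen
  rw [dif_neg (by omega), dif_pos ⟨h1, by rw [h2]; exact hj⟩]
  congr 1
  · exact Fin.ext h2
  · exact Fin.ext (by show (2 * j + 1) / 2 + 1 = j + 1; omega)

/-- the cut layer -/
lemma cut_iff {n : ℕ} (m : ℕ) : ∀ (f : ℕ → Bool) (j : ℕ), j + m ≤ n →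
    ∀ (r : Setoid (Option (Fin n))) (x y : Option (Fin n)),
    (layMap n false f (2 * j) m r) x y ↔ x = y ∨
      ((∀ s : Fin n, x = some s → ∀ k, k < m → s.val = j + k → f k = true) ∧
       (∀ s : Fin n, y = some s → ∀ k, k < m → s.val = j + k → f k = true) ∧ r x y) := by
  induction m with
  | zero =>
    intro f j _ r x y
    rw [layMap_zero]
    constructor
    · intro h
      exact Or.inr ⟨fun s _ k hk => absurd hk (by omega), fun s _ k hk => absurd hk (by omega), h⟩
    · rintro (h | ⟨_, _, h⟩)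
      · subst h; exact r.refl x
      · exact h
  | succ m ih =>
    intro f j hj r x y
    have IH := ih (fun k => f (k + 1)) (j + 1) (by omega) r
    have e : 2 * j + 2 = 2 * (j + 1) := by ring
    -- splitting of the condition
    have key : ∀ z : Option (Fin n),
        (∀ s : Fin n, z = some s → ∀ k, k < m + 1 → s.val = j + k → f k = true) ↔
        ((∀ s : Fin n, z = some s → ∀ k, k < m → s.val = (j + 1) + k → f (k + 1) = true) ∧
          (z = some ⟨j, by omega⟩ → f 0 = true)) := by
      intro z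
      constructor
      · intro h
        refine ⟨fun s hs k hk hk2 => h s hs (k + 1) (by omega) (by omega), fun hz => ?_⟩
        exact h ⟨j, by omega⟩ hz 0 (by omega) rfl
      · rintro ⟨h1, h2⟩ s hs k hk hk2
        rcases k with _ | k
        · apply h2
          rw [hs]
          congr 1
          exact Fin.ext (by simpa using hk2)
        · exact h1 s hs k (by omega) (by omega)
    by_cases hf : f 0 = false
    · have e1 : layMap n false f (2 * j) (m + 1) r
          = cutS ⟨j, by omega⟩ (layMap n false (fun k => f (k + 1)) (2 * (j + 1)) m r) := by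
        rw [layMap_succ, if_pos hf, gen_even (by omega), e]
      rw [e1]
      show (x = y ∨ (x ≠ some ⟨j, _⟩ ∧ y ≠ some ⟨j, _⟩ ∧
        (layMap n false (fun k => f (k + 1)) (2 * (j + 1)) m r) x y)) ↔ _
      rw [IH, key x, key y]
      have hf' : ¬ (f 0 = true) := by rw [hf]; decide
      constructor
      · rintro (h | ⟨h1, h2, h | ⟨h3, h4, h5⟩⟩)
        · exact Or.inl h
        · exact Or.inl h
        · exact Or.inr ⟨⟨h3, fun h => absurd h h1⟩, ⟨h4, fun h => absurd h h2⟩, h5⟩
      · rintro (h | ⟨⟨h1, h2⟩, ⟨h3, h4⟩, h5⟩)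
        · exact Or.inl h
        · exact Or.inr ⟨fun h => hf' (h2 h), fun h => hf' (h4 h), Or.inr ⟨h1, h3, h5⟩⟩
    · have hf' : f 0 = true := by simpa using hf
      have e1 : layMap n false f (2 * j) (m + 1) r
          = (layMap n false (fun k => f (k + 1)) (2 * (j + 1)) m r) := by
        rw [layMap_succ, if_neg hf, e]
      rw [e1, IH, key x, key y]
      constructor
      · rintro (h | ⟨h3, h4, h5⟩)
        · exact Or.inl h
        · exact Or.inr ⟨⟨h3, fun h => hf'⟩, ⟨h4, fun h => hf'⟩, h5⟩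
      · rintro (h | ⟨⟨h1, h2⟩, ⟨h3, h4⟩, h5⟩)
        · exact Or.inl h
        · exact Or.inr ⟨h1, h3, h5⟩

/-- the join layer contains the previous state -/
lemma join_ge {n : ℕ} (m : ℕ) : ∀ (f : ℕ → Bool) (j : ℕ), j + m < n →
    ∀ (r : Setoid (Option (Fin n))) (x y : Option (Fin n)), r x y →
    (layMap n true f (2 * j + 1) m r) x y := by
  induction m with
  | zero => intro f j _ r x y h; exact h
  | succ m ih =>
    intro f j hj r x y h
    have IH := ih (fun k => f (k + 1)) (j + 1) (by omega) r x y h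
    have e : 2 * j + 1 + 2 = 2 * (j + 1) + 1 := by ring
    rw [layMap_succ]
    by_cases hf : f 0 = true
    · rw [if_pos hf, gen_odd (by omega), e]
      exact Or.inl IH
    · rw [if_neg hf, e]; exact IH

/-- the join layer joins the marked pairs -/
lemma join_mem {n : ℕ} (m : ℕ) : ∀ (f : ℕ → Bool) (j : ℕ), j + m < n →
    ∀ (r : Setoid (Option (Fin n))) (k : ℕ) (_ : k < m) (_ : f k = true)
    (h1 : j + k < n) (h2 : j + k + 1 < n),
    (layMap n true f (2 * j + 1) m r) (some ⟨j + k, h1⟩) (some ⟨j + k + 1, h2⟩) := by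
  induction m with
  | zero => intro f j _ r k hk; omega
  | succ m ih =>
    intro f j hj r k hk hfk h1 h2
    have e : 2 * j + 1 + 2 = 2 * (j + 1) + 1 := by ring
    rw [layMap_succ]
    rcases k with _ | k
    · rw [if_pos hfk, gen_odd (by omega), e]
      exact Or.inr (Or.inl ⟨Setoid.refl' _ _, Setoid.refl' _ _⟩)
    · have IH := ih (fun k => f (k + 1)) (j + 1) (by omega) r k (by omega) hfk (by omega) (by omega)
      have e1 : (⟨j + 1 + k, by omega⟩ : Fin n) = ⟨j + (k + 1), h1⟩ :=
        Fin.ext (by show j + 1 + k = j + (k + 1); omega)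
      have e2 : (⟨j + 1 + k + 1, by omega⟩ : Fin n) = ⟨j + (k + 1) + 1, h2⟩ :=
        Fin.ext (by show j + 1 + k + 1 = j + (k + 1) + 1; omega)
      rw [e1, e2] at IH
      by_cases hf : f 0 = true
      · rw [if_pos hf, gen_odd (by omega), e]
        exact Or.inl IH
      · rw [if_neg hf, e]; exact IH

/-- the join layer is minimal -/
lemma join_min {n : ℕ} (m : ℕ) : ∀ (f : ℕ → Bool) (j : ℕ), j + m < n →
    ∀ (r s : Setoid (Option (Fin n))), (∀ x y, r x y → s x y) →
    (∀ (k : ℕ) (_ : k < m) (_ : f k = true) (h1 : j + k < n) (h2 : j + k + 1 < n),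
      s (some ⟨j + k, h1⟩) (some ⟨j + k + 1, h2⟩)) →
    ∀ x y, (layMap n true f (2 * j + 1) m r) x y → s x y := by
  induction m with
  | zero => intro f j _ r s hrs _ x y h; exact hrs x y h
  | succ m ih =>
    intro f j hj r s hrs hs x y h
    have e : 2 * j + 1 + 2 = 2 * (j + 1) + 1 := by ring
    have IH := ih (fun k => f (k + 1)) (j + 1) (by omega) r s hrs (by
      intro k hk hfk h1 h2
      have := hs (k + 1) (by omega) hfk (by omega) (by omega)
      have e1 : (⟨j + 1 + k, by omega⟩ : Fin n) = ⟨j + (k + 1), by omega⟩ :=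
        Fin.ext (by show j + 1 + k = j + (k + 1); omega)
      have e2 : (⟨j + 1 + k + 1, by omega⟩ : Fin n) = ⟨j + (k + 1) + 1, by omega⟩ :=
        Fin.ext (by show j + 1 + k + 1 = j + (k + 1) + 1; omega)
      rw [e1, e2]
      exact this)
    rw [layMap_succ] at h
    by_cases hf : f 0 = true
    · rw [if_pos hf, gen_odd (by omega), e] at h
      have hj0 := hs 0 (by omega) hf (by omega) (by omega)
      rcases h with h | ⟨h1, h2⟩ | ⟨h1, h2⟩
      · exact IH x y h
      · exact s.trans (IH _ _ h1) (s.trans hj0 (IH _ _ h2))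
      · exact s.trans (IH _ _ h1) (s.trans (s.symm hj0) (IH _ _ h2))
    · rw [if_neg hf, e] at h; exact IH x y h

/-! ## 2. the state and the connectivity -/

/-- state of the column `i` -/
def run (b : ℕ) (H V : ℕ → ℕ → Bool) : ℕ → Setoid (Option (Fin (b + 1)))
  | 0 => ⊤
  | (i + 1) => layMap (b + 1) true (V i) 1 b (layMap (b + 1) false (H i) 0 (b + 1) (run b H V i))

/-- edges in the columns up to `i`, with column zero identified -/
inductive GG (b : ℕ) (H V : ℕ → ℕ → Bool) (i : ℕ) : ℕ × ℕ → ℕ × ℕ → Prop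
  | zero (j k : ℕ) : j < b + 1 → k < b + 1 → GG b H V i (0, j) (0, k)
  | hor (k j : ℕ) : k < i → j < b + 1 → H k j = true → GG b H V i (k, j) (k + 1, j)
  | ver (k j : ℕ) : k < i → j < b → V k j = true → GG b H V i (k + 1, j) (k + 1, j + 1)

/-- the vertex of a site -/
def ph {n : ℕ} (i : ℕ) : Option (Fin n) → ℕ × ℕ
  | none => (0, 0)
  | some j => (i, j.val)

lemma eqv_iff {α : Type} {R : α → α → Prop} {S : α → Prop} (h : ∀ x y, R x y → (S x ↔ S y))
    {x y : α} (hxy : EqvGen R x y) : S x ↔ S y := by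
  induction hxy with
  | rel x y h1 => exact h x y h1
  | refl x => exact Iff.rfl
  | symm x y _ ih => exact ih.symm
  | trans x y z _ _ ih1 ih2 => exact ih1.trans ih2

lemma eqv_mono {α : Type} {R S : α → α → Prop} (h : ∀ x y, R x y → S x y)
    {x y : α} (hxy : EqvGen R x y) : EqvGen S x y := by
  induction hxy with
  | rel x y h1 => exact EqvGen.rel _ _ (h x y h1)
  | refl x => exact EqvGen.refl _
  | symm x y _ ih => exact EqvGen.symm _ _ ih
  | trans x y z _ _ ih1 ih2 => exact EqvGen.trans _ _ _ ih1 ih2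

lemma GG_succ {b : ℕ} {H V : ℕ → ℕ → Bool} {i : ℕ} {x y : ℕ × ℕ} (h : GG b H V i x y) :
    GG b H V (i + 1) x y := by
  cases h with
  | zero j k h1 h2 => exact GG.zero j k h1 h2
  | hor k j h1 h2 h3 => exact GG.hor k j (by omega) h2 h3
  | ver k j h1 h2 h3 => exact GG.ver k j (by omega) h2 h3

theorem run_iff (b : ℕ) (H V : ℕ → ℕ → Bool) (i : ℕ) : ∀ (x y : Option (Fin (b + 1))),
    (run b H V i) x y ↔ EqvGen (GG b H V i) (ph i x) (ph i y) := by
  induction i with
  | zero =>
    intro x y
    constructor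
    · intro _
      apply EqvGen.rel
      rcases x with _ | x <;> rcases y with _ | y
      · exact GG.zero 0 0 (by omega) (by omega)
      · exact GG.zero 0 y.val (by omega) y.isLt
      · exact GG.zero x.val 0 x.isLt (by omega)
      · exact GG.zero x.val y.val x.isLt y.isLt
    · intro _
      exact trivial
  | succ i ih =>
    intro x y
    set N : Option (Fin (b + 1)) → Prop := fun z => ∀ s : Fin (b + 1), z = some s →
      H i s.val = true with hN
    set r1 := layMap (b + 1) false (H i) 0 (b + 1) (run b H V i) with hr1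
    have hcut : ∀ x y, r1 x y ↔ x = y ∨ (N x ∧ N y ∧ run b H V i x y) := by
      intro x y
      have := cut_iff (n := b + 1) (b + 1) (H i) 0 (by omega) (run b H V i) x y
      rw [Nat.mul_zero] at this
      rw [hr1, this]
      have hh : ∀ z : Option (Fin (b + 1)),
          (∀ s : Fin (b + 1), z = some s → ∀ k, k < b + 1 → s.val = 0 + k → H i k = true) ↔ N z := by
        intro z
        constructor
        · intro h s hs; exact h s hs s.val s.isLt (by omega)
        · intro h s hs k _ hk; have := h s hs; rw [hk, Nat.zero_add] at this; exact this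
      rw [hh x, hh y]
    have hr2 : run b H V (i + 1) = layMap (b + 1) true (V i) (2 * 0 + 1) b r1 := rfl
    have hge : ∀ x y, r1 x y → (run b H V (i + 1)) x y := by
      intro x y h; rw [hr2]; exact join_ge b (V i) 0 (by omega) r1 x y h
    have hmem : ∀ (k : ℕ) (hk : k < b) (_ : V i k = true),
        (run b H V (i + 1)) (some ⟨k, by omega⟩) (some ⟨k + 1, by omega⟩) := by
      intro k hk hv
      have := join_mem b (V i) 0 (by omega) r1 k hk hv (by omega) (by omega)
      rw [hr2]
      have e1 : (⟨0 + k, by omega⟩ : Fin (b + 1)) = ⟨k, by omega⟩ :=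
        Fin.ext (by show 0 + k = k; omega)
      have e2 : (⟨0 + k + 1, by omega⟩ : Fin (b + 1)) = ⟨k + 1, by omega⟩ :=
        Fin.ext (by show 0 + k + 1 = k + 1; omega)
      rw [e1, e2] at this
      exact this
    -- outlets
    have hout : ∀ z, N z → EqvGen (GG b H V (i + 1)) (ph (i + 1) z) (ph i z) := by
      intro z hz
      rcases z with _ | z
      · exact EqvGen.refl _
      · exact EqvGen.symm _ _ (EqvGen.rel _ _ (GG.hor i z.val (by omega) z.isLt (hz z rfl)))
    constructor
    · -- soundness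
      let s : Setoid (Option (Fin (b + 1))) :=
        { r := fun x y => EqvGen (GG b H V (i + 1)) (ph (i + 1) x) (ph (i + 1) y)
          iseqv := ⟨fun x => EqvGen.refl _, fun h => EqvGen.symm _ _ h,
            fun h1 h2 => EqvGen.trans _ _ _ h1 h2⟩ }
      intro h
      rw [hr2] at h
      refine join_min b (V i) 0 (by omega) r1 s ?_ ?_ x y h
      · intro x y hxy
        show EqvGen (GG b H V (i + 1)) (ph (i + 1) x) (ph (i + 1) y)
        rcases (hcut x y).1 hxy with hxy | ⟨hx, hy, hxy⟩
        · subst hxy; exact EqvGen.refl _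
        · have h1 := (ih x y).1 hxy
          have h2 : EqvGen (GG b H V (i + 1)) (ph i x) (ph i y) :=
            eqv_mono (fun _ _ h => GG_succ h) h1
          exact EqvGen.trans _ _ _ (hout x hx) (EqvGen.trans _ _ _ h2 (EqvGen.symm _ _ (hout y hy)))
      · intro k hk hv h1 h2
        show EqvGen (GG b H V (i + 1)) (i + 1, 0 + k) (i + 1, 0 + k + 1)
        rw [Nat.zero_add]
        exact EqvGen.rel _ _ (GG.ver i k (by omega) hk hv)
    · -- completeness
      intro h
      set σ := run b H V (i + 1) with hσ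
      let P : ℕ × ℕ → Prop := fun u =>
        (∃ (j : ℕ) (hj : j < b + 1), u = (i + 1, j) ∧ σ x (some ⟨j, hj⟩)) ∨
        (u.1 ≤ i ∧ ∃ z, N z ∧ σ x z ∧ EqvGen (GG b H V i) u (ph i z))
      have hPlow : ∀ u v : ℕ × ℕ, u.1 ≤ i → v.1 ≤ i → EqvGen (GG b H V i) u v → (P u ↔ P v) := by
        have aux : ∀ u v : ℕ × ℕ, u.1 ≤ i → v.1 ≤ i → EqvGen (GG b H V i) u v → (P u → P v) := by
          intro u v hu hv huv hP
          rcases hP with ⟨j, hj, h1, _⟩ | ⟨_, z, h1, h2, h3⟩
          · rw [h1] at hu; exact absurd hu (by simp)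
          · exact Or.inr ⟨hv, z, h1, h2, EqvGen.trans _ _ _ (EqvGen.symm _ _ huv) h3⟩
        intro u v hu hv huv
        exact ⟨aux u v hu hv huv, aux v u hv hu (EqvGen.symm _ _ huv)⟩
      have hPtop : ∀ (j : ℕ) (hj : j < b + 1), P (i + 1, j) ↔ σ x (some ⟨j, hj⟩) := by
        intro j hj
        constructor
        · rintro (⟨j', hj', h1, h2⟩ | ⟨h1, _⟩)
          · have : j = j' := (Prod.mk.inj h1).2
            subst this; exact h2
          · exact absurd h1 (by simp)
        · intro h1; exact Or.inl ⟨j, hj, rfl, h1⟩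
      have hP : ∀ u v, GG b H V (i + 1) u v → (P u ↔ P v) := by
        intro u v huv
        cases huv with
        | zero j k h1 h2 => exact hPlow _ _ (by simp) (by simp) (EqvGen.rel _ _ (GG.zero j k h1 h2))
        | hor k j h1 h2 h3 =>
          rcases Nat.lt_or_ge k i with hk | hk
          · exact hPlow _ _ (by show k ≤ i; omega) (by show k + 1 ≤ i; omega)
              (EqvGen.rel _ _ (GG.hor k j hk h2 h3))
          · have hki : k = i := by omega
            subst hki
            have hNj : N (some ⟨j, h2⟩) := by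
              intro s hs
              have : s = ⟨j, h2⟩ := (Option.some.inj hs).symm
              rw [this]; exact h3
            rw [hPtop j h2]
            constructor
            · rintro (⟨j', hj', h5, _⟩ | ⟨_, z, h5, h6, h7⟩)
              · exact absurd (Prod.mk.inj h5).1 (by omega)
              · have h8 : run b H V k (some ⟨j, h2⟩) z := (ih (some ⟨j, h2⟩) z).2 h7
                have h9 : σ (some ⟨j, h2⟩) z := hge _ _ ((hcut _ _).2 (Or.inr ⟨hNj, h5, h8⟩))
                exact σ.trans h6 (σ.symm h9)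
            · intro h5
              exact Or.inr ⟨le_refl _, some ⟨j, h2⟩, hNj, h5, EqvGen.refl _⟩
        | ver k j h1 h2 h3 =>
          rcases Nat.lt_or_ge k i with hk | hk
          · exact hPlow _ _ (by show k + 1 ≤ i; omega) (by show k + 1 ≤ i; omega)
              (EqvGen.rel _ _ (GG.ver k j hk h2 h3))
          · have hki : k = i := by omega
            subst hki
            rw [hPtop j (by omega), hPtop (j + 1) (by omega)]
            have h4 := hmem j h2 h3
            exact ⟨fun h5 => σ.trans h5 h4, fun h5 => σ.trans h5 (σ.symm h4)⟩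
      have hstart : P (ph (i + 1) x) := by
        rcases x with _ | j
        · exact Or.inr ⟨by show 0 ≤ i; omega, none, fun s hs => (by cases hs), σ.refl _, EqvGen.refl _⟩
        · exact Or.inl ⟨j.val, j.isLt, rfl, σ.refl _⟩
      have hend : P (ph (i + 1) y) := (eqv_iff hP h).1 hstart
      rcases y with _ | j
      · rcases hend with ⟨j, hj, h1, _⟩ | ⟨_, z, h1, h2, h3⟩
        · exact absurd (Prod.mk.inj h1).1 (by omega)
        · have h4 : run b H V i none z := (ih none z).2 h3
          have h5 : σ none z := hge _ _ ((hcut _ _).2 (Or.inr ⟨fun s hs => (by cases hs), h1, h4⟩))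
          exact σ.trans h2 (σ.symm h5)
      · exact (hPtop j.val j.isLt).1 hend

/-! ## 3. matrices as operators -/

/-- functions vanishing on dead states -/
def Dz {n : ℕ} (g : Setoid (Option (Fin n)) → ℝ) : Prop := ∀ r, ¬ alive r → g r = 0

noncomputable def Aop (n : ℕ) (p : ℝ) (i : ℕ) (g : Setoid (Option (Fin n)) → ℝ) :
    Setoid (Option (Fin n)) → ℝ := fun r => p * g r + (1 - p) * g (gen n i r)

lemma Dz_Aop {n : ℕ} (p : ℝ) (i : ℕ) {g : Setoid (Option (Fin n)) → ℝ} (hg : Dz g) :
    Dz (Aop n p i g) := by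
  intro r hr
  have h2 : ¬ alive (gen n i r) := fun h => hr (alive_gen h)
  simp only [Aop, hg r hr, hg _ h2, mul_zero, add_zero]

lemma vm_ER {n : ℕ} {g : Setoid (Option (Fin n)) → ℝ} (hg : Dz g) (i : ℕ) (σ : St n) :
    ∑ τ : St n, g τ.1 * ER n i τ σ = g (gen n i σ.1) := by
  classical
  by_cases ha : alive (gen n i σ.1)
  · obtain ⟨τ0, hτ0⟩ : ∃ τ0 : St n, τ0.1 = gen n i σ.1 :=
      ⟨⟨gen n i σ.1, Reach.gen i σ.1 σ.2 ha⟩, rfl⟩
    refine (Finset.sum_eq_single τ0 ?_ ?_).trans ?_
    · intro τ _ hne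
      have : ¬ (gen n i σ.1 = τ.1) := fun h => hne (Subtype.ext (by rw [hτ0, h]))
      simp [ER, this]
    · intro h; exact absurd (Finset.mem_univ _) h
    · simp [ER, hτ0]
  · rw [hg _ ha]
    apply Finset.sum_eq_zero
    intro τ _
    by_cases h : gen n i σ.1 = τ.1
    · rw [← h, hg _ ha, zero_mul]
    · simp [ER, h]

noncomputable def LayOp (n : ℕ) (p : ℝ) : ℕ → ℕ → (Setoid (Option (Fin n)) → ℝ) →
    (Setoid (Option (Fin n)) → ℝ)
  | _, 0, g => g
  | i, (m + 1), g => LayOp n p (i + 2) m (Aop n p i g)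

lemma LayOp_succ (n : ℕ) (p : ℝ) (i m : ℕ) (g : Setoid (Option (Fin n)) → ℝ) :
    LayOp n p i (m + 1) g = LayOp n p (i + 2) m (Aop n p i g) := rfl

lemma Dz_LayOp {n : ℕ} (p : ℝ) (m : ℕ) : ∀ (i : ℕ) {g : Setoid (Option (Fin n)) → ℝ} (_ : Dz g),
    Dz (LayOp n p i m g) := by
  induction m with
  | zero => intro i g hg; exact hg
  | succ m ih => intro i g hg; exact ih (i + 2) (Dz_Aop p i hg)

lemma vm_lay {n : ℕ} (p : ℝ) (m : ℕ) : ∀ (i : ℕ) {g : Setoid (Option (Fin n)) → ℝ} (_ : Dz g)
    (σ : St n), ∑ τ : St n, g τ.1 * layR n p i m τ σ = LayOp n p i m g σ.1 := by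
  induction m with
  | zero =>
    intro i g _ σ
    show ∑ τ : St n, g τ.1 * (1 : Matrix (St n) (St n) ℝ) τ σ = g σ.1
    rw [Finset.sum_eq_single σ]
    · simp
    · intro τ _ hne; simp [Matrix.one_apply_ne hne]
    · intro h; exact absurd (Finset.mem_univ _) h
  | succ m ih =>
    intro i g hg σ
    rw [LayOp_succ, ← ih (i + 2) (Dz_Aop p i hg) σ]
    show ∑ τ : St n, g τ.1 * ((p • (1 : Matrix (St n) (St n) ℝ) + (1 - p) • ER n i) *
      layR n p (i + 2) m) τ σ = _
    simp only [Matrix.mul_apply, Finset.mul_sum]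
    rw [Finset.sum_comm]
    apply Finset.sum_congr rfl
    intro ρ _
    have h1 : ∑ τ : St n, g τ.1 * (1 : Matrix (St n) (St n) ℝ) τ ρ = g ρ.1 := by
      rw [Finset.sum_eq_single ρ]
      · simp
      · intro τ _ hne; simp [Matrix.one_apply_ne hne]
      · intro h; exact absurd (Finset.mem_univ _) h
    have h2 := vm_ER hg i ρ
    have h3 : ∑ τ : St n, g τ.1 * ((p • (1 : Matrix (St n) (St n) ℝ) + (1 - p) • ER n i) τ ρ)
        = Aop n p i g ρ.1 := by
      simp only [Aop]
      rw [← h2, ← h1, Finset.mul_sum, Finset.mul_sum, ← Finset.sum_add_distrib]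
      apply Finset.sum_congr rfl
      intro τ _
      simp only [Matrix.add_apply, Matrix.smul_apply, smul_eq_mul]
      ring
    rw [← h3, Finset.sum_mul]
    apply Finset.sum_congr rfl
    intro τ _
    ring

/-- the operator of one column -/
noncomputable def Top (b : ℕ) (p : ℝ) (g : Setoid (Option (Fin (b + 1))) → ℝ) :
    Setoid (Option (Fin (b + 1))) → ℝ := LayOp (b + 1) p 0 (b + 1) (LayOp (b + 1) p 1 b g)

lemma Dz_Top {b : ℕ} (p : ℝ) {g : Setoid (Option (Fin (b + 1))) → ℝ} (hg : Dz g) :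
    Dz (Top b p g) := Dz_LayOp p (b + 1) 0 (Dz_LayOp p b 1 hg)

lemma vm_TT {b : ℕ} (p : ℝ) {g : Setoid (Option (Fin (b + 1))) → ℝ} (hg : Dz g)
    (σ : St (b + 1)) : ∑ τ : St (b + 1), g τ.1 * TT (b + 1) p τ σ = Top b p g σ.1 := by
  have h2 := vm_lay p (b + 1) 0 (Dz_LayOp p b 1 hg) σ
  unfold Top
  rw [← h2]
  show ∑ τ : St (b + 1), g τ.1 * (layR (b + 1) p 1 b * layR (b + 1) p 0 (b + 1)) τ σ = _
  simp only [Matrix.mul_apply, Finset.mul_sum]
  rw [Finset.sum_comm]
  apply Finset.sum_congr rfl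
  intro ρ _
  rw [← vm_lay p b 1 hg ρ, Finset.sum_mul]
  apply Finset.sum_congr rfl
  intro τ _
  ring

lemma vm_pow {b : ℕ} (p : ℝ) (a : ℕ) : ∀ {g : Setoid (Option (Fin (b + 1))) → ℝ} (_ : Dz g)
    (σ : St (b + 1)), ∑ τ : St (b + 1), g τ.1 * (TT (b + 1) p ^ a) τ σ = ((Top b p)^[a] g) σ.1 := by
  induction a with
  | zero =>
    intro g _ σ
    rw [pow_zero]
    show _ = g σ.1
    rw [Finset.sum_eq_single σ]
    · simp
    · intro τ _ hne; simp [Matrix.one_apply_ne hne]
    · intro h; exact absurd (Finset.mem_univ _) h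
  | succ a ih =>
    intro g hg σ
    rw [Function.iterate_succ_apply, ← ih (Dz_Top p hg) σ, pow_succ']
    simp only [Matrix.mul_apply, Finset.mul_sum]
    rw [Finset.sum_comm]
    apply Finset.sum_congr rfl
    intro ρ _
    rw [← vm_TT p hg ρ, Finset.sum_mul]
    apply Finset.sum_congr rfl
    intro τ _
    ring

/-! ## 4. the operator as a sum over configurations -/

/-- extension by `false` -/
def ext {m : ℕ} (c : Fin m → Bool) : ℕ → Bool := fun k => if h : k < m then c ⟨k, h⟩ else false

lemma ext_val {m : ℕ} (c : Fin m → Bool) (k : Fin m) : ext c k.val = c k := by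
  simp [ext]

/-- weight of one generator -/
noncomputable def wb (p : ℝ) (s x : Bool) : ℝ := if x = s then 1 - p else p

lemma LayOp_eq {n : ℕ} (p : ℝ) (s : Bool) (m : ℕ) : ∀ (i : ℕ) (g : Setoid (Option (Fin n)) → ℝ)
    (r : Setoid (Option (Fin n))), LayOp n p i m g r =
      ∑ c : Fin m → Bool, (∏ k, wb p s (c k)) * g (layMap n s (ext c) i m r) := by
  induction m with
  | zero =>
    intro i g r
    simp [LayOp, layMap_zero]
  | succ m ih =>
    intro i g r
    rw [LayOp_succ, ih (i + 2) (Aop n p i g) r]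
    rw [← (Fin.consEquiv (fun _ : Fin (m + 1) => Bool)).sum_comp, Fintype.sum_prod_type,
      Finset.sum_comm]
    apply Finset.sum_congr rfl
    intro c _
    have hx : ∀ x : Bool, (∏ k, wb p s ((Fin.consEquiv (fun _ : Fin (m + 1) => Bool)) (x, c) k))
        = wb p s x * ∏ k, wb p s (c k) := by
      intro x
      rw [Fin.prod_univ_succ]
      rfl
    have hy : ∀ x : Bool, layMap n s (ext ((Fin.consEquiv (fun _ : Fin (m + 1) => Bool)) (x, c)))
        i (m + 1) r = if x = s then gen n i (layMap n s (ext c) (i + 2) m r)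
          else layMap n s (ext c) (i + 2) m r := by
      intro x
      rw [layMap_succ]
      have e1 : ext ((Fin.consEquiv (fun _ : Fin (m + 1) => Bool)) (x, c)) 0 = x := by
        simp [ext, Fin.consEquiv]
      have e2 : (fun k => ext ((Fin.consEquiv (fun _ : Fin (m + 1) => Bool)) (x, c)) (k + 1))
          = ext c := by
        funext k
        simp only [ext, Fin.consEquiv]
        by_cases hk : k < m
        · rw [dif_pos (by omega), dif_pos hk]
          exact Fin.cons_succ (α := fun _ : Fin (m + 1) => Bool) x c ⟨k, hk⟩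
        · rw [dif_neg (by omega), dif_neg hk]
      rw [e1, e2]
    simp only [hx, hy, Fintype.sum_bool]
    cases s <;> simp [Aop, wb] <;> ring

/-- configurations of the columns -/
def ext2 {a m : ℕ} (c : Fin a → Fin m → Bool) : ℕ → ℕ → Bool :=
  fun i => if h : i < a then ext (c ⟨i, h⟩) else fun _ => false

lemma run_congr (b : ℕ) {H V H' V' : ℕ → ℕ → Bool} (i : ℕ) (h1 : ∀ k, k < i → H k = H' k)
    (h2 : ∀ k, k < i → V k = V' k) : run b H V i = run b H' V' i := by
  induction i with
  | zero => rfl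
  | succ i ih =>
    have e := ih (fun k hk => h1 k (by omega)) (fun k hk => h2 k (by omega))
    show layMap (b + 1) true (V i) 1 b (layMap (b + 1) false (H i) 0 (b + 1) (run b H V i)) =
      layMap (b + 1) true (V' i) 1 b (layMap (b + 1) false (H' i) 0 (b + 1) (run b H' V' i))
    rw [e, h1 i (by omega), h2 i (by omega)]

lemma ext2_snoc_lt {a m : ℕ} (c : Fin a → Fin m → Bool) (x : Fin m → Bool) {k : ℕ} (hk : k < a) :
    ext2 (Fin.snoc (α := fun _ => Fin m → Bool) c x) k = ext2 c k := by
  unfold ext2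
  rw [dif_pos (by omega), dif_pos hk]
  congr 1
  have : (⟨k, by omega⟩ : Fin (a + 1)) = Fin.castSucc ⟨k, hk⟩ := rfl
  rw [this, Fin.snoc_castSucc]

lemma ext2_snoc_last {a m : ℕ} (c : Fin a → Fin m → Bool) (x : Fin m → Bool) :
    ext2 (Fin.snoc (α := fun _ => Fin m → Bool) c x) a = ext x := by
  unfold ext2
  rw [dif_pos (by omega)]
  congr 1
  have : (⟨a, by omega⟩ : Fin (a + 1)) = Fin.last a := rfl
  rw [this, Fin.snoc_last]

lemma sum_snoc {a m : ℕ} (F : (Fin (a + 1) → Fin m → Bool) → ℝ) :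
    ∑ c, F c = ∑ c : Fin a → Fin m → Bool, ∑ x : Fin m → Bool,
      F (Fin.snoc (α := fun _ => Fin m → Bool) c x) := by
  rw [← (Fin.snocEquiv (fun _ : Fin (a + 1) => Fin m → Bool)).sum_comp, Fintype.sum_prod_type,
    Finset.sum_comm]
  rfl

lemma Top_iter {b : ℕ} (p : ℝ) (a : ℕ) : ∀ (g : Setoid (Option (Fin (b + 1))) → ℝ),
    ((Top b p)^[a] g) ⊤ = ∑ C : Fin a → Fin (b + 1) → Bool, ∑ D : Fin a → Fin b → Bool,
      (∏ i, ∏ k, wb p false (C i k)) * (∏ i, ∏ k, wb p true (D i k)) *
        g (run b (ext2 C) (ext2 D) a) := by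
  induction a with
  | zero =>
    intro g
    simp [run]
  | succ a ih =>
    intro g
    rw [Function.iterate_succ_apply, ih (Top b p g), sum_snoc]
    apply Finset.sum_congr rfl
    intro C _
    have h1 : ∀ x : Fin (b + 1) → Bool, ∑ D : Fin (a + 1) → Fin b → Bool,
        (∏ i, ∏ k, wb p false ((Fin.snoc (α := fun _ => Fin (b + 1) → Bool) C x :
          Fin (a + 1) → Fin (b + 1) → Bool) i k)) *
        (∏ i, ∏ k, wb p true (D i k)) *
          g (run b (ext2 (Fin.snoc (α := fun _ => Fin (b + 1) → Bool) C x)) (ext2 D) (a + 1))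
        = ∑ D : Fin a → Fin b → Bool, ∑ y : Fin b → Bool,
          (∏ i, ∏ k, wb p false (C i k)) * (∏ k, wb p false (x k)) *
          ((∏ i, ∏ k, wb p true (D i k)) * (∏ k, wb p true (y k))) *
          g (layMap (b + 1) true (ext y) 1 b (layMap (b + 1) false (ext x) 0 (b + 1)
            (run b (ext2 C) (ext2 D) a))) := by
      intro x
      rw [sum_snoc]
      apply Finset.sum_congr rfl
      intro D _
      apply Finset.sum_congr rfl
      intro y _
      rw [Fin.prod_univ_castSucc (f := fun i => ∏ k, wb p false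
        ((Fin.snoc (α := fun _ => Fin (b + 1) → Bool) C x : Fin (a + 1) → Fin (b + 1) → Bool) i k)),
        Fin.prod_univ_castSucc (f := fun i => ∏ k, wb p true
        ((Fin.snoc (α := fun _ => Fin b → Bool) D y : Fin (a + 1) → Fin b → Bool) i k))]
      simp only [Fin.snoc_castSucc, Fin.snoc_last]
      congr 2
      show layMap (b + 1) true (ext2 (Fin.snoc (α := fun _ => Fin b → Bool) D y) a) 1 b
        (layMap (b + 1) false (ext2 (Fin.snoc (α := fun _ => Fin (b + 1) → Bool) C x) a) 0 (b + 1)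
          (run b (ext2 (Fin.snoc (α := fun _ => Fin (b + 1) → Bool) C x))
            (ext2 (Fin.snoc (α := fun _ => Fin b → Bool) D y)) a)) = _
      rw [ext2_snoc_last, ext2_snoc_last, run_congr b a (fun k hk => ext2_snoc_lt C x hk)
        (fun k hk => ext2_snoc_lt D y hk)]
    simp only [h1]
    rw [Finset.sum_comm]
    apply Finset.sum_congr rfl
    intro D _
    have h2 : Top b p g (run b (ext2 C) (ext2 D) a) = ∑ x : Fin (b + 1) → Bool,
        (∏ k, wb p false (x k)) * ∑ y : Fin b → Bool, (∏ k, wb p true (y k)) *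
        g (layMap (b + 1) true (ext y) 1 b (layMap (b + 1) false (ext x) 0 (b + 1)
            (run b (ext2 C) (ext2 D) a))) := by
      unfold Top
      rw [LayOp_eq p false]
      apply Finset.sum_congr rfl
      intro x _
      rw [LayOp_eq p true]
    rw [h2, Finset.mul_sum]
    apply Finset.sum_congr rfl
    intro x _
    rw [Finset.mul_sum, Finset.mul_sum]
    apply Finset.sum_congr rfl
    intro y _
    ring

/-! ## 5. crossings -/

lemma alive_of_reach {n : ℕ} (hn : 0 < n) {r : Setoid (Option (Fin n))} (h : Reach n r) :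
    alive r := by
  cases h with
  | top => exact ⟨⟨0, hn⟩, trivial⟩
  | gen i r _ h => exact h

lemma sum_cons {a m : ℕ} (F : (Fin (a + 1) → Fin m → Bool) → ℝ) :
    ∑ c, F c = ∑ x : Fin m → Bool, ∑ c : Fin a → Fin m → Bool,
      F (Fin.cons (α := fun _ => Fin m → Bool) x c) := by
  rw [← (Fin.consEquiv (fun _ : Fin (a + 1) => Fin m → Bool)).sum_comp, Fintype.sum_prod_type]
  rfl

lemma sum_wb (p : ℝ) (m : ℕ) : ∑ y : Fin m → Bool, ∏ k, wb p true (y k) = 1 := by
  have h := Finset.prod_univ_sum (fun _ : Fin m => (Finset.univ : Finset Bool))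
    (fun _ x => wb p true x)
  rw [Fintype.piFinset_univ] at h
  rw [← h]
  apply Finset.prod_eq_one
  intro k _
  simp [wb]

/-- configuration from the families -/
def cfg {a b : ℕ} (C : Fin a → Fin (b + 1) → Bool) (D : Fin (a + 1) → Fin b → Bool) :
    Edg a b → Bool := Sum.elim (fun e => C e.1 e.2) (fun e => D e.1 e.2)

lemma sum_cfg {a b : ℕ} (F : (Edg a b → Bool) → ℝ) :
    ∑ ω, F ω = ∑ C : Fin a → Fin (b + 1) → Bool, ∑ D : Fin (a + 1) → Fin b → Bool,
      F (cfg C D) := by
  rw [← (Equiv.sumArrowEquivProdArrow (Fin a × Fin (b + 1)) (Fin (a + 1) × Fin b)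
    Bool).symm.sum_comp, Fintype.sum_prod_type,
    ← (Equiv.curry (Fin a) (Fin (b + 1)) Bool).symm.sum_comp]
  apply Finset.sum_congr rfl
  intro C _
  rw [← (Equiv.curry (Fin (a + 1)) (Fin b) Bool).symm.sum_comp]
  rfl

lemma wgt_cfg (p : ℝ) {a b : ℕ} (C : Fin a → Fin (b + 1) → Bool) (y : Fin b → Bool)
    (D : Fin a → Fin b → Bool) :
    wgt p (cfg C (Fin.cons (α := fun _ => Fin b → Bool) y D)) =
      (∏ k, wb p true (y k)) * ((∏ i, ∏ k, wb p false (C i k)) * (∏ i, ∏ k, wb p true (D i k))) := by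
  unfold wgt
  rw [Fintype.prod_prod_type, Fintype.prod_prod_type]
  have A : (∏ x : Fin a, ∏ y_1 : Fin (b + 1),
      if cfg C (Fin.cons (α := fun _ => Fin b → Bool) y D) (Sum.inl (x, y_1)) = true then p
        else 1 - p) = ∏ i, ∏ k, wb p false (C i k) := by
    refine Finset.prod_congr rfl fun i _ => Finset.prod_congr rfl fun k _ => ?_
    show (if C i k = true then p else 1 - p) = wb p false (C i k)
    cases C i k <;> simp [wb]
  have B : (∏ x : Fin (a + 1), ∏ y_1 : Fin b,
      if cfg C (Fin.cons (α := fun _ => Fin b → Bool) y D) (Sum.inr (x, y_1)) = true then 1 - p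
        else p) = (∏ k, wb p true (y k)) * ∏ i, ∏ k, wb p true (D i k) := by
    rw [Fin.prod_univ_succ]
    rfl
  rw [A, B]
  ring

lemma ext2_val {a m : ℕ} (C : Fin a → Fin m → Bool) (i : Fin a) (k : Fin m) :
    ext2 C i.val k.val = C i k := by
  simp [ext2, ext]

lemma cross_iff {a b : ℕ} (C : Fin a → Fin (b + 1) → Bool) (y : Fin b → Bool)
    (D : Fin a → Fin b → Bool) :
    Cross (cfg C (Fin.cons (α := fun _ => Fin b → Bool) y D)) ↔
      alive (run b (ext2 C) (ext2 D) a) := by
  set ω := cfg C (Fin.cons (α := fun _ => Fin b → Bool) y D) with hω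
  have hH : ∀ (i : Fin a) (j : Fin (b + 1)), ω (Sum.inl (i, j)) = ext2 C i.val j.val := by
    intro i j; rw [ext2_val]; rfl
  have hV : ∀ (i : Fin a) (j : Fin b), ω (Sum.inr (i.succ, j)) = ext2 D i.val j.val := by
    intro i j; rw [ext2_val]; rfl
  constructor
  · rintro ⟨j, j', hj, hj', h⟩
    refine ⟨⟨j', by omega⟩, ?_⟩
    rw [run_iff]
    have h1 : EqvGen (GG b (ext2 C) (ext2 D) a) (0, j) (a, j') := by
      apply eqv_mono _ h
      intro u v huv
      cases huv with
      | hor i j h1 => exact GG.hor i.val j.val i.isLt j.isLt (by rw [← hH]; exact h1)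
      | ver i j h1 =>
        rcases Fin.eq_zero_or_eq_succ i with hi | ⟨i', hi⟩
        · rw [hi]
          exact GG.zero j.val (j.val + 1) (by omega) (by omega)
        · rw [hi] at h1 ⊢
          exact GG.ver i'.val j.val i'.isLt j.isLt (by rw [← hV]; exact h1)
    exact EqvGen.trans _ _ _ (EqvGen.rel _ _ (GG.zero 0 j (by omega) (by omega))) h1
  · rintro ⟨k, hk⟩
    rw [run_iff] at hk
    let S : ℕ × ℕ → Prop := fun u => ∃ j, j ≤ b ∧ EqvGen (Step ω) (0, j) u
    have hS0 : ∀ j, j ≤ b → S (0, j) := fun j hj => ⟨j, hj, EqvGen.refl _⟩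
    have hSe : ∀ u v, EqvGen (Step ω) u v → (S u ↔ S v) := by
      intro u v huv
      constructor
      · rintro ⟨j, hj, h⟩; exact ⟨j, hj, EqvGen.trans _ _ _ h huv⟩
      · rintro ⟨j, hj, h⟩; exact ⟨j, hj, EqvGen.trans _ _ _ h (EqvGen.symm _ _ huv)⟩
    have hS : ∀ u v, GG b (ext2 C) (ext2 D) a u v → (S u ↔ S v) := by
      intro u v huv
      cases huv with
      | zero j k h1 h2 => exact ⟨fun _ => hS0 k (by omega), fun _ => hS0 j (by omega)⟩
      | hor k j h1 h2 h3 =>
        apply hSe
        apply EqvGen.rel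
        exact Step.hor (ω := ω) ⟨k, h1⟩ ⟨j, h2⟩ (by rw [hH]; exact h3)
      | ver k j h1 h2 h3 =>
        apply hSe
        apply EqvGen.rel
        exact Step.ver (ω := ω) (Fin.succ ⟨k, h1⟩) ⟨j, h2⟩ (by rw [hV]; exact h3)
    obtain ⟨j, hj, h⟩ := (eqv_iff hS hk).1 (hS0 0 (by omega))
    exact ⟨j, k.val, hj, by omega, h⟩

end LINKX

open LINKX in
theorem cl_link : S_link := by
  classical
  intro p a b
  set g : Setoid (Option (Fin (b + 1))) → ℝ := fun r => if alive r then 1 else 0 with hgdef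
  have hg : Dz g := fun r hr => by simp [hgdef, hr]
  have h1 : ∑ τ, (TT (b + 1) p ^ a) τ (st0 (b + 1))
      = ∑ τ : St (b + 1), g τ.1 * (TT (b + 1) p ^ a) τ (st0 (b + 1)) := by
    apply Finset.sum_congr rfl
    intro τ _
    have : g τ.1 = 1 := by
      have := alive_of_reach (by omega) τ.2
      simp [hgdef, this]
    rw [this, one_mul]
  rw [h1, vm_pow p a hg (st0 (b + 1))]
  show _ = ((Top b p)^[a] g) ⊤
  rw [Top_iter]
  unfold prob
  rw [sum_cfg]
  apply Finset.sum_congr rfl
  intro C _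
  rw [sum_cons]
  rw [Finset.sum_comm]
  apply Finset.sum_congr rfl
  intro D _
  have h2 : ∀ y : Fin b → Bool,
      (if Cross (cfg C (Fin.cons (α := fun _ => Fin b → Bool) y D)) then
        wgt p (cfg C (Fin.cons (α := fun _ => Fin b → Bool) y D)) else 0) =
      (∏ k, wb p true (y k)) * ((∏ i, ∏ k, wb p false (C i k)) * (∏ i, ∏ k, wb p true (D i k)) *
        g (run b (ext2 C) (ext2 D) a)) := by
    intro y
    rw [wgt_cfg]
    by_cases hc : alive (run b (ext2 C) (ext2 D) a)
    · rw [if_pos ((cross_iff C y D).2 hc)]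
      simp [hgdef, hc]
    · rw [if_neg (fun h => hc ((cross_iff C y D).1 h))]
      simp [hgdef, hc]
  simp only [h2]
  rw [← Finset.sum_mul, sum_wb, one_mul]

end W96CL
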